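import Pool.Agent.H46.CH.AT

/-!
# (SD) extra elements are carried between nodes with the same data (MP_64fb07_lc).  helper99
-/

set_option autoImplicit false

namespace Pool.Agent.H99.CH

open Classical Pool.Agent.H8.VR Pool.Agent.H69.VR Pool.Agent.H46.CH

lemma sd_good {N Q L T O C : Type} [Fintype Q] [Fintype L] [Fintype T] [Fintype C]
    (W : Pm N Q L T O C) (t : Rt N Q L T O C) (h : W.Ok t) : W.good t.dt := by
  cases h with
  | leaf D q l h hc hg => exact hg
  | join D o w t₁ t₂ h₁ h₂ hs ht hu hF₁ hF₂ a' e hw hc hg => exact hg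

lemma sd_eqp {N Q L T O C : Type} [Fintype T] (W : Pm N Q L T O C) {d x y : ℕ}
    (hx : W.eqp d x) (hy : W.eqp d y) : x ≡ y [MOD W.P] := by
  have h1 : ∀ z, W.eqp d z → d ≡ z [MOD W.P] := by
    intro z hz
    rcases hz with h | h
    · rw [h]
    · exact h.2.2
  exact (h1 x hx).symm.trans (h1 y hy)

theorem pf_SD (hXA : T_XA) (hXB : T_XB) (hSH : T_SH) (hED : T_ED) :
    Pool.Agent.H46.CH.T_SD := by
  intro N Q L T O C _ _ _ _ _ _ W t R D U hsub hok hDt hDR hPU hHU hRD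
  have : Fintype O := Fintype.ofFinite O
  have hokt : W.Ok t := (hED N Q L T O C W).1 t R hsub hok
  have hgood := sd_good W t hokt
  have h1 := hXA N Q L T O C W D.s t.dt.c U hRD
  rw [hDt.1] at h1
  obtain ⟨hF, hS⟩ := hSH N Q L T O C W t R hsub hok
  have hex : ∀ (σ : Ix Q L T C) (φ : Fk Q L O), U σ ≠ 0 → R.dt.F φ < t.dt.F φ →
      ∃ θ, W.slt (σ.1, σ.2.1) φ θ := by
    intro σ φ hσ hφ
    apply hgood
    · have h2 : W.H ≤ D.c σ := hHU σ hσ
      have h3 : D.c σ ≤ t.dt.c σ := by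
        rcases hDt.2.2 σ with h | h
        · exact h.le
        · exact h.2.1
      have h4 : t.dt.c σ ≤ kc t.dt.c (σ.1, σ.2.1) := by
        unfold kc fs
        refine Finset.single_le_sum (f := t.dt.c) (fun _ _ => Nat.zero_le _) ?_
        simp
      omega
    · rcases hDt.2.1 φ with h | h
      · rcases hDR.2.1 φ with h' | h'
        · omega
        · omega
      · exact h.2.1
  have h2 := hS U 0 hPU hex h1
  rw [← hDR.1] at h2
  refine hXB N Q L T O C W D.s R.dt.c U _ h2 ?_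
  intro σ hσ z
  have hoff : (0 + W.ofs fun φ => t.dt.F φ - R.dt.F φ) (σ.1, σ.2.1) z =
      ∑ φ : Fk Q L O, if φ.2.2.2 = z.1 ∧ W.sl (σ.1, σ.2.1) φ = z.2 then
        t.dt.F φ - R.dt.F φ else 0 := by
    rw [zero_add]
    unfold Pm.ofs
    rfl
  rw [hoff]
  constructor
  · apply Finset.dvd_sum
    intro φ _
    split_ifs
    · exact (Nat.modEq_iff_dvd' (hF φ)).1 (sd_eqp W (hDR.2.1 φ) (hDt.2.1 φ))
    · exact dvd_zero _
  · intro hne
    obtain ⟨φ, -, hφ⟩ := Finset.exists_ne_zero_of_sum_ne_zero hne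
    rw [ne_eq, ite_eq_right_iff, Classical.not_imp] at hφ
    obtain ⟨⟨h3, h4⟩, h5⟩ := hφ
    have h6 := hex σ φ hσ (by omega)
    have h7 : W.slt (σ.1, σ.2.1) φ (W.sl (σ.1, σ.2.1) φ) := by
      unfold Pm.sl
      rw [dif_pos h6]
      exact h6.choose_spec
    have h8 := h7.2.1
    rw [h3, h4] at h8
    exact h8

end Pool.Agent.H99.CH
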